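import Pool.Agent.Lib_helper75.RAGam
import Pool.Agent.Lib_helper54.RANoCut

/-!
MP_20f8ce_gt : the 27-sided polytope is the Coxeter polytope of `Γ^6_2`.
-/

open MeasureTheory Finset

namespace Pool.Agent.RA

/-- nonzero product with the centre -/
lemma B_p27_ne {v : M 6} (hv : IsInt v) (h1 : B v v = 1) : B v p27 ≠ 0 := by
  obtain ⟨m, hm, k, hk⟩ := odd_p27 hv h1
  rw [hm]
  intro h
  have : m = 0 := by exact_mod_cast h
  omega

/-- elements of `Γ^6_2` which move the centre into the cone over the polytope are trivial;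
all elements of `Γ^6_2` are products of the 27 reflections -/
theorem gamma_eq_W27 {g : Module.End ℝ (M 6)} (hg : IsGamma62 g) : g ∈ W27 := by
  have h3 : (0 : ℝ) < Real.sqrt 3 := Real.sqrt_pos.2 (by norm_num)
  have h33 : Real.sqrt 3 ^ 2 = 3 := Real.sq_sqrt (by norm_num)
  have hH := hg.2.1 _ (scale_Hyp h3 (by rw [B_p27_self, h33]) (by simp [p27]))
  obtain ⟨h, hh, hle⟩ := exists_W27 _ hH
  obtain ⟨hG, k, hk, h1, h2⟩ := W27_props h hh
  have hcomp : IsGamma62 (h ∘ₗ g) := hG.comp hg
  have hle' : ∀ i, B ((h ∘ₗ g) p27) (e27 i) ≤ 0 := by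
    intro i
    have := hle i
    rw [map_smul, map_smul, B_smul_left] at this
    exact nonpos_of_mul_nonpos_right this (inv_pos.2 h3)
  have hid := eq_id_of_fix_p27 hcomp (eq_p27 hcomp hle')
  have : g = k := by
    refine LinearMap.ext fun x => ?_
    have h4 : h (g x) = x := by
      have := LinearMap.congr_fun hid x
      simpa using this
    calc g x = k (h (g x)) := (h1 _).symm
      _ = k x := by rw [h4]
  rw [this]
  exact hk

/-- an element of `Γ^6_2` which moves an interior point of the polytope into it is trivial -/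
theorem eq_id_of_interior {g : M 6 →ₗ[ℝ] M 6} (hg : IsGamma62 g) {x : M 6}
    (hx : ∀ i, B x (e27 i) < 0) (hgx : ∀ i, B (g x) (e27 i) ≤ 0) : g = LinearMap.id := by
  obtain ⟨-, h, hh, h1, h2⟩ := W27_props g (gamma_eq_W27 hg)
  obtain ⟨hG, -⟩ := W27_props h hh
  refine eq_id_of_fix_p27 hg (eq_p27 hg fun i => ?_)
  have hv : IsInt (h (e27 i)) := hG.isInt (isInt_e27 i)
  have hv1 : B (h (e27 i)) (h (e27 i)) = 1 := by rw [hG.1, B_e27_self]
  have e1 : ∀ y, B (g y) (e27 i) = B y (h (e27 i)) := by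
    intro y
    rw [← hG.1, h1]
  rw [e1]
  have e2 := hgx i
  rw [e1] at e2
  by_contra hcon
  push Not at hcon
  have h3 : B (-(h (e27 i))) p27 ≤ 0 := by rw [B_neg_left, B_comm]; linarith
  have h4 := (unit_sign hv.neg (by rw [B_neg_left, B_neg_right, neg_neg]; exact hv1) h3).2 x hx
  rw [B_neg_right] at h4
  linarith

/-- the 27-sided polytope is a Coxeter polytope of `Γ^6_2` -/
theorem isCoxeterPolytope_P27 : IsCoxeterPolytope {x | x ∈ Hyp ∧ ∀ i, B x (e27 i) ≤ 0} := by
  have h3 : (0 : ℝ) < Real.sqrt 3 := Real.sqrt_pos.2 (by norm_num)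
  have h33 : Real.sqrt 3 ^ 2 = 3 := Real.sq_sqrt (by norm_num)
  refine ⟨27, e27, B_e27_self, rfl, ⟨(Real.sqrt 3)⁻¹ • p27, ?_, ?_⟩, ?_, ?_, ?_, ?_⟩
  · exact scale_Hyp h3 (by rw [B_p27_self, h33]) (by simp [p27])
  · intro i
    rw [B_smul_left, B_p27]
    have := inv_pos.2 h3
    linarith
  · exact fun i => isGamma_refl (isInt_e27 i) (B_e27_self i)
  · exact fun g hg => gamma_eq_W27 hg
  · intro x hx
    obtain ⟨g, hg, h⟩ := exists_W27 x hx
    obtain ⟨hG, -⟩ := W27_props g hg
    exact ⟨g, hG, hG.2.1 x hx, h⟩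
  · intro g hg x _ hx hgx
    exact eq_id_of_interior hg hx hgx.2

/-- a reflection is not the identity -/
lemma refl_ne_id {v : M 6} (h1 : B v v = 1) : refl v ≠ LinearMap.id := by
  intro h
  have h2 := LinearMap.congr_fun h v
  rw [refl_int h1, h1, LinearMap.id_apply] at h2
  have h3 : v = 0 := by
    have : v - (2 * 1 : ℝ) • v - v = 0 := by rw [h2]; simp
    have h4 : (-2 : ℝ) • v = 0 := by
      rw [← this]; module
    rcases smul_eq_zero.1 h4 with h5 | h5
    · norm_num at h5
    · exact h5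
  rw [h3] at h1
  simp at h1

/-- unit normals of mirrors are integral -/
lemma isInt_of_mirror {v : M 6} (h1 : B v v = 1) (hv : IsGamma62 (refl v)) : IsInt v := by
  obtain ⟨w, c, hw, hww, -, rfl⟩ := root_int v ⟨by rw [h1]; norm_num, hv⟩
  rw [B_smul_left, B_smul_right, hww, mul_one] at h1
  rcases mul_self_eq_one_iff.1 h1 with rfl | rfl
  · simpa using hw
  · simpa using hw.neg

/-- every Coxeter polytope of `Γ^6_2` is the image of the 27-sided polytope under an element of
the group -/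
theorem coxeter_unique {P : Set (M 6)} (hP : IsCoxeterPolytope P) :
    ∃ g h : M 6 →ₗ[ℝ] M 6, IsGamma62 g ∧ IsGamma62 h ∧ (∀ x, h (g x) = x) ∧ (∀ x, g (h x) = x) ∧
      P = {x | x ∈ Hyp ∧ ∀ i, B x (h (e27 i)) ≤ 0} := by
  obtain ⟨k, f, hf1, hPdef, ⟨q, hq, hqf⟩, hfG, -, -, hfund⟩ := hP
  obtain ⟨g, hgW, hgq⟩ := exists_W27 q hq
  obtain ⟨hg, h, hhW, h1, h2⟩ := W27_props g hgW
  obtain ⟨hh, -⟩ := W27_props h hhW
  refine ⟨g, h, hg, hh, h1, h2, ?_⟩
  have e1 : ∀ y i, B (g y) (e27 i) = B y (h (e27 i)) := by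
    intro y i
    rw [← hh.1, h1]
  have hint : ∀ i, IsInt (h (e27 i)) := fun i => hh.isInt (isInt_e27 i)
  have hunit : ∀ i, B (h (e27 i)) (h (e27 i)) = 1 := fun i => by rw [hh.1, B_e27_self]
  -- mirrors do not meet the interior of `P`
  have hmir : ∀ v, IsInt v → B v v = 1 → ∀ y ∈ Hyp, (∀ j, B y (f j) < 0) → B y v ≠ 0 := by
    intro v hv hv1 y hy hyf h0
    have hr : refl v y = y := by
      rw [refl_int hv1, h0]; simp
    refine refl_ne_id hv1 (hfund _ (isGamma_refl hv hv1) y hy hyf ?_)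
    rw [hr, hPdef]
    exact ⟨hy, fun i => (hyf i).le⟩
  have hgq' : ∀ i, B (g q) (e27 i) < 0 := by
    intro i
    refine lt_of_le_of_ne (hgq i) ?_
    rw [e1]
    exact hmir _ (hint i) (hunit i) q hq hqf
  rw [hPdef]
  ext x
  simp only [Set.mem_ofPred_eq]
  constructor
  · rintro ⟨hx, hxf⟩
    refine ⟨hx, fun i => ?_⟩
    by_contra hcon
    push Not at hcon
    set v := h (e27 i) with hv
    have hqv : B q v < 0 := by rw [hv, ← e1]; exact hgq' i
    set y := (B x v) • q - (B q v) • x with hy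
    have hyv : B y v = 0 := by
      rw [hy, B_sub_left, B_smul_left, B_smul_left]; ring
    have hyf : ∀ j, B y (f j) < 0 := by
      intro j
      rw [hy, B_sub_left, B_smul_left, B_smul_left]
      have := mul_neg_of_pos_of_neg hcon (hqf j)
      have := mul_nonneg_of_nonpos_of_nonpos hqv.le (hxf j)
      linarith
    have hxq' : B q x < 0 :=
      B_neg_of_causal hq (by rintro rfl; have := hx.1; simp at this)
        (by rw [hx.1]; norm_num) hx.2.le
    have hyy : B y y < 0 := by
      have hexp : B y y = -(B x v) ^ 2 - (B q v) ^ 2 - 2 * (B x v * B q v * B q x) := by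
        rw [hy, B_sub_left, B_sub_right, B_sub_right]
        simp only [B_smul_left, B_smul_right]
        rw [hx.1, hq.1, B_comm x q]
        ring
      rw [hexp]
      have := mul_pos (mul_pos hcon (neg_pos.2 hqv)) (neg_pos.2 hxq')
      nlinarith [mul_pos hcon hcon, mul_pos (neg_pos.2 hqv) (neg_pos.2 hqv)]
    have hy2 : 0 < y.2 := by
      rw [hy, Prod.snd_sub, Prod.smul_snd, Prod.smul_snd, smul_eq_mul, smul_eq_mul]
      have := mul_pos hcon hq.2
      have := mul_pos (neg_pos.2 hqv) hx.2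
      linarith
    have hs : 0 < Real.sqrt (-B y y) := Real.sqrt_pos.2 (by linarith)
    have hs2 : Real.sqrt (-B y y) ^ 2 = -B y y := Real.sq_sqrt (by linarith)
    have hyH := scale_Hyp hs (by rw [hs2, neg_neg]) hy2
    refine hmir v (hint i) (hunit i) _ hyH (fun j => ?_) ?_
    · rw [B_smul_left]
      exact mul_neg_of_pos_of_neg (inv_pos.2 hs) (hyf j)
    · rw [B_smul_left, hyv, mul_zero]
  · rintro ⟨hx, hxe⟩
    refine ⟨hx, fun j => ?_⟩
    have hfi : IsInt (f j) := isInt_of_mirror (hf1 j) (hfG j)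
    have hgi : IsInt (g (f j)) := hg.isInt hfi
    have hg1 : B (g (f j)) (g (f j)) = 1 := by rw [hg.1, hf1]
    have hsign : B (g (f j)) p27 ≤ 0 := by
      by_contra hcon
      push Not at hcon
      have h3 : B (-(g (f j))) p27 ≤ 0 := by rw [B_neg_left]; linarith
      have h4 := (unit_sign hgi.neg (by rw [B_neg_left, B_neg_right, neg_neg]; exact hg1) h3).2
        (g q) hgq'
      rw [B_neg_right, hg.1] at h4
      have := hqf j
      linarith
    have h5 := (unit_sign hgi hg1 hsign).1 (g x) (fun i => by rw [e1]; exact hxe i)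
    rwa [hg.1] at h5

/-- the right-angled system of an image of the 27-sided polytope -/
theorem coxeter_volume {P : Set (M 6)} (hP : IsCoxeterPolytope P) :
    IsRAP P ∧ hvol P = ENNReal.ofReal (Real.pi ^ 3 / 15) := by
  obtain ⟨g, h, hg, hh, h1, h2, rfl⟩ := coxeter_unique hP
  have e1 : ∀ y i, B (g y) (e27 i) = B y (h (e27 i)) := by
    intro y i
    rw [← hh.1, h1]
  have h3 : (0 : ℝ) < Real.sqrt 3 := Real.sqrt_pos.2 (by norm_num)
  have h33 : Real.sqrt 3 ^ 2 = 3 := Real.sq_sqrt (by norm_num)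
  have hc := scale_Hyp h3 (x := p27) (by rw [B_p27_self, h33]) (by simp [p27])
  let R : RASys 6 (Fin 27) :=
    { e := fun i => h (e27 i)
      unit := fun i => by rw [hh.1, B_e27_self]
      gram := fun i j hij => by rw [hh.1]; exact R27.gram i j hij
      p := h p27
      ptime := by rw [hh.1, B_p27_self]; norm_num
      pneg := fun i => by rw [hh.1, B_p27]; norm_num
      cone := fun x hx => by
        rw [← hg.1]
        exact cone27 (g x) fun i => by rw [e1]; exact hx i }
  have hRG : R.G = fun i j : Fin 27 => (g27 i j : ℝ) := by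
    funext i j
    show B (h (e27 i)) (h (e27 j)) = _
    rw [hh.1, B_e27]
  have hK : ∀ x ∈ R.K, 0 ≤ x.2 := by
    intro x hx
    by_contra hcon
    push Not at hcon
    have hx0 : x ≠ 0 := by rintro rfl; simp at hcon
    have hp : B x R.p < 0 := R.K_time (by norm_num) hx hx0
    have hpH := hh.2.1 _ hc
    have h4 := B_neg_of_causal hpH (neg_ne_zero.2 hx0)
      (by rw [B_neg_left, B_neg_right, neg_neg]; exact R.cone x hx) (by show 0 ≤ -x.2; linarith)
    rw [map_smul, B_smul_left, B_neg_right, B_comm] at h4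
    have h5 : 0 < (Real.sqrt 3)⁻¹ := inv_pos.2 h3
    have h6 : B x (h p27) < 0 := hp
    nlinarith [mul_neg_of_pos_of_neg h5 h6]
  have hvolP : hvol {x | x ∈ Hyp ∧ ∀ i, B x (h (e27 i)) ≤ 0} = ENNReal.ofReal (Real.pi ^ 3 / 15) := by
    have := hvol_of_chi R hK
    rw [hRG, chi27] at this
    rw [this]
    congr 1
    ring
  refine ⟨?_, hvolP⟩
  refine isRAP_of_int (fun i => h (e27 i)) (fun i => hh.isInt (isInt_e27 i))
    (fun i => by rw [hh.1, B_e27_self]) _ (hh.2.1 _ hc) (fun i => ?_) ?_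
  · rw [map_smul, B_smul_left, hh.1, B_p27]
    have := inv_pos.2 h3
    linarith
  · rw [hvolP]
    exact ENNReal.ofReal_lt_top

end Pool.Agent.RA
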