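import Pool.Agent.Lib_helper16.RA.Statement

/-!
MP_20f8ce_gt : the Coxeter polytope of `Γ^6_2`.
-/

open MeasureTheory Finset

namespace Pool.Agent.RA

/-- `P` is a Coxeter polytope of `Γ^6_2`, that is, a fundamental polytope of this group bounded by
the mirrors of a set of generating reflections: `P` is an intersection of finitely many half-spaces
`B x (f i) ≤ 0` with interior points, the reflections in the hyperplanes of the unit vectors `f i`
belong to `Γ^6_2` and generate it, each point of `H^6` can be moved into `P` by an element of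
`Γ^6_2`, and only the identity moves an interior point of `P` into `P`. -/
def IsCoxeterPolytope (P : Set (M 6)) : Prop :=
  ∃ (k : ℕ) (f : Fin k → M 6),
    (∀ i, B (f i) (f i) = 1) ∧
    P = {x | x ∈ Hyp ∧ ∀ i, B x (f i) ≤ 0} ∧
    (∃ x ∈ Hyp, ∀ i, B x (f i) < 0) ∧
    (∀ i, IsGamma62 (refl (f i))) ∧
    (∀ g : Module.End ℝ (M 6), IsGamma62 g →
      g ∈ Submonoid.closure (Set.range fun i => (refl (f i) : Module.End ℝ (M 6)))) ∧
    (∀ x ∈ Hyp, ∃ g, IsGamma62 g ∧ g x ∈ P) ∧
    (∀ g, IsGamma62 g → ∀ x ∈ Hyp, (∀ i, B x (f i) < 0) → g x ∈ P → g = LinearMap.id)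

end Pool.Agent.RA
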