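import Pool.Agent.Lib_helper75.RAInt
import Pool.Agent.Lib_helper75.RACoxDefs

/-!
MP_20f8ce_gt : the group `Γ^6_2`.
-/

open MeasureTheory Finset

namespace Pool.Agent.RA

lemma pos_of_B_neg {x y : M 6} (hx : x ∈ Hyp) (hy : B y y = -1) (h : B x y < 0) : y ∈ Hyp := by
  refine ⟨hy, ?_⟩
  by_contra hcon
  push Not at hcon
  have hy0 : -y ≠ 0 := by
    intro h0
    rw [neg_eq_zero] at h0
    rw [h0] at hy
    simp at hy
  have := B_neg_of_causal hx hy0 (by rw [B_neg_left, B_neg_right, neg_neg, hy]; norm_num)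
    (by show 0 ≤ -y.2; linarith)
  rw [B_neg_right] at this
  linarith

lemma refl_int {v : M 6} (h1 : B v v = 1) (x : M 6) : refl v x = x - (2 * B x v) • v := by
  rw [refl_apply, h1, div_one]

lemma isGamma_refl {v : M 6} (hv : IsInt v) (h1 : B v v = 1) : IsGamma62 (refl v) := by
  refine ⟨B_refl (by rw [h1]; norm_num), ?_, ?_⟩
  · intro x hx
    refine pos_of_B_neg hx (by rw [B_refl (by rw [h1]; norm_num)]; exact hx.1) ?_
    rw [refl_int h1, B_sub_right, B_smul_right, hx.1]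
    nlinarith [sq_nonneg (B x v)]
  · intro x hx
    obtain ⟨m, hm⟩ := hx.B hv
    refine ⟨((-m : ℤ) : ℝ) • v, hv.zsmul _, ?_⟩
    rw [refl_int h1, hm]
    push_cast
    module

lemma IsGamma62.comp {g h : M 6 →ₗ[ℝ] M 6} (hg : IsGamma62 g) (hh : IsGamma62 h) :
    IsGamma62 (g ∘ₗ h) := by
  refine ⟨fun x y => ?_, fun x hx => hg.2.1 _ (hh.2.1 x hx), fun x hx => ?_⟩
  · rw [LinearMap.comp_apply, LinearMap.comp_apply, hg.1, hh.1]
  · obtain ⟨z, hz, h1⟩ := hh.2.2 x hx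
    obtain ⟨w, hw, h2⟩ := hg.2.2 x hx
    obtain ⟨w', hw', h3⟩ := hg.2.2 z hz
    refine ⟨w + (z + (2 : ℝ) • w'), hw.add (hz.add (by simpa using hw'.zsmul 2)), ?_⟩
    rw [LinearMap.comp_apply, h1, map_add, map_smul, h2, h3]
    module

lemma isGamma_id : IsGamma62 (LinearMap.id) := by
  refine ⟨fun x y => rfl, fun x hx => hx, fun x hx => ⟨0, ⟨fun i => ⟨0, by simp⟩, 0, by simp⟩, by simp⟩⟩

lemma IsGamma62.isInt {g : M 6 →ₗ[ℝ] M 6} (hg : IsGamma62 g) {x : M 6} (hx : IsInt x) :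
    IsInt (g x) := by
  obtain ⟨z, hz, h1⟩ := hg.2.2 x hx
  rw [h1]
  exact hx.add (by simpa using hz.zsmul 2)

/-- the monoid generated by the 27 reflections -/
noncomputable def W27 : Submonoid (Module.End ℝ (M 6)) :=
  Submonoid.closure (Set.range fun i => (refl (e27 i) : Module.End ℝ (M 6)))

lemma B_e27_self (i : Fin 27) : B (e27 i) (e27 i) = 1 := by rw [B_e27, g27_diag]; simp

lemma W27_props (g : Module.End ℝ (M 6)) (hg : g ∈ W27) :
    IsGamma62 g ∧ ∃ h ∈ W27, (∀ x, h (g x) = x) ∧ ∀ x, g (h x) = x := by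
  induction hg using Submonoid.closure_induction with
  | mem g hg =>
    obtain ⟨i, rfl⟩ := hg
    have h0 : B (e27 i) (e27 i) ≠ 0 := by rw [B_e27_self]; norm_num
    exact ⟨isGamma_refl (isInt_e27 i) (B_e27_self i), refl (e27 i),
      Submonoid.subset_closure ⟨i, rfl⟩, fun x => refl_refl h0 x, fun x => refl_refl h0 x⟩
  | one => exact ⟨isGamma_id, 1, W27.one_mem, fun x => rfl, fun x => rfl⟩
  | mul g g' hg hg' ih ih' =>
    obtain ⟨h1, k, hk, h2, h3⟩ := ih
    obtain ⟨h1', k', hk', h2', h3'⟩ := ih'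
    refine ⟨h1.comp h1', k' * k, W27.mul_mem hk' hk, fun x => ?_, fun x => ?_⟩
    · show k' (k (g (g' x))) = x
      rw [h2, h2']
    · show g (g' (k' (k x))) = x
      rw [h3', h3]

lemma finite_orbit (x : M 6) (hx : x ∈ Hyp) (C : ℝ) :
    {u : M 6 | IsInt u ∧ B u u = -3 ∧ 0 < u.2 ∧ -B x u ≤ C}.Finite := by
  obtain ⟨N, hN⟩ := exists_nat_ge (2 * x.2 * C)
  refine Set.Finite.subset ((Set.finite_Icc (fun _ => -(N : ℤ) : Fin 7 → ℤ) (fun _ => (N : ℤ))).image
    toM) ?_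
  rintro u ⟨hu, h1, h2, h3⟩
  obtain ⟨z, rfl⟩ := hu.exists_toM
  refine ⟨z, ?_, rfl⟩
  have hx0 := hx.1
  rw [B_self] at hx0
  have hx2 := hx.2
  -- the vector `2 x₂ x - e₀`
  set e0 : M 6 := (0, 1) with he0
  have hxe : B x e0 = -x.2 := by simp [RA.B, he0]
  have hee : B e0 e0 = -1 := by simp [RA.B, he0]
  set y : M 6 := (2 * x.2) • x - e0 with hy
  have hyy : B y y = -1 := by
    rw [hy, B_sub_left, B_sub_right, B_sub_right, B_smul_left, B_smul_left, B_smul_right,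
      B_smul_right, B_comm e0 x, hxe, hee, hx.1]
    ring
  have hyx : B x y < 0 := by
    rw [hy, B_sub_right, B_smul_right, hx.1, hxe]
    linarith
  have hyH := pos_of_B_neg hx hyy hyx
  have hu0 : toM z ≠ 0 := by
    intro h
    rw [h] at h1
    simp at h1
  have h4 := B_neg_of_causal hyH hu0 (by rw [h1]; norm_num) h2.le
  rw [hy, B_sub_left, B_smul_left] at h4
  have h5 : B e0 (toM z) = -(z 6 : ℝ) := by simp [RA.B, he0, toM]
  rw [h5] at h4
  have h6 : (z 6 : ℝ) ≤ N := by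
    have : 2 * x.2 * (-B x (toM z)) ≤ 2 * x.2 * C :=
      mul_le_mul_of_nonneg_left h3 (by linarith)
    linarith
  have h7 : (0 : ℝ) < z 6 := h2
  have h8 : ∀ i : Fin 6, (z i.castSucc : ℝ) ^ 2 ≤ (z 6 : ℝ) ^ 2 := by
    intro i
    rw [B_self] at h1
    have : (z i.castSucc : ℝ) ^ 2 ≤ ∑ j : Fin 6, (z j.castSucc : ℝ) ^ 2 :=
      Finset.single_le_sum (f := fun j : Fin 6 => (z j.castSucc : ℝ) ^ 2)
        (fun j _ => sq_nonneg _) (mem_univ i)
    simp only [toM] at h1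
    linarith
  have h9 : ∀ i : Fin 6, |(z i.castSucc : ℝ)| ≤ N := fun i =>
    (abs_le_of_sq_le_sq (h8 i) h7.le).trans h6 |> fun h => h
  have h10 : ∀ i : Fin 7, -(N : ℤ) ≤ z i ∧ z i ≤ N := by
    intro i
    refine Fin.lastCases ?_ (fun i => ?_) i
    · have a1 : (z 6 : ℤ) ≤ N := by exact_mod_cast h6
      have a2 : (0 : ℤ) < z 6 := by exact_mod_cast h7
      exact ⟨by show -(N : ℤ) ≤ z 6; omega, a1⟩
    · have := abs_le.1 (h9 i)
      exact ⟨by exact_mod_cast this.1, by exact_mod_cast this.2⟩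
  exact ⟨fun i => (h10 i).1, fun i => (h10 i).2⟩

/-- descent: each point can be moved to the 27-sided cone by a product of the 27 reflections -/
theorem exists_W27 (x : M 6) (hx : x ∈ Hyp) : ∃ g ∈ W27, ∀ i, B (g x) (e27 i) ≤ 0 := by
  set O : Set (M 6) := {u | ∃ g ∈ W27, u = g p27} with hO
  have hOi : ∀ u ∈ O, IsInt u ∧ B u u = -3 ∧ 0 < u.2 := by
    rintro u ⟨g, hg, rfl⟩
    obtain ⟨h1, -⟩ := W27_props g hg
    refine ⟨h1.isInt isInt_p27, by rw [h1.1, B_p27_self], ?_⟩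
    have h3 : (0 : ℝ) < Real.sqrt 3 := Real.sqrt_pos.2 (by norm_num)
    have h33 : Real.sqrt 3 ^ 2 = 3 := Real.sq_sqrt (by norm_num)
    have := h1.2.1 _ (scale_Hyp h3 (by rw [B_p27_self, h33]) (by simp [p27]))
    rw [map_smul] at this
    have h2 := this.2
    rw [Prod.smul_snd, smul_eq_mul] at h2
    exact pos_of_mul_pos_right h2 (inv_pos.2 h3).le
  set T : Set (M 6) := {u | u ∈ O ∧ -B x u ≤ -B x p27} with hT
  have hTfin : T.Finite := by
    refine (finite_orbit x hx (-B x p27)).subset ?_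
    rintro u ⟨hu, h⟩
    obtain ⟨h1, h2, h3⟩ := hOi u hu
    exact ⟨h1, h2, h3, h⟩
  have hTne : T.Nonempty := ⟨p27, ⟨1, W27.one_mem, rfl⟩, le_rfl⟩
  obtain ⟨u, ⟨⟨g, hg, rfl⟩, hu⟩, hmin⟩ := Set.exists_min_image T (fun u => -B x u) hTfin hTne
  obtain ⟨hG, h, hh, h1, h2⟩ := W27_props g hg
  refine ⟨h, hh, fun i => ?_⟩
  by_contra hcon
  push Not at hcon
  have hri : (refl (e27 i) : Module.End ℝ (M 6)) ∈ W27 := Submonoid.subset_closure ⟨i, rfl⟩
  have key : B x (g (refl (e27 i) p27)) = B x (g p27) + 2 * B (h x) (e27 i) := by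
    rw [refl_int (B_e27_self i), B_p27, map_sub, map_smul, B_sub_right, B_smul_right]
    have : B x (g (e27 i)) = B (h x) (e27 i) := by
      conv_lhs => rw [← h2 x]
      rw [hG.1]
    rw [this]
    ring
  have hmem : g (refl (e27 i) p27) ∈ T := by
    refine ⟨⟨g * refl (e27 i), W27.mul_mem hg hri, rfl⟩, ?_⟩
    rw [key]
    linarith
  have := hmin _ hmem
  rw [key] at this
  linarith

/-- linear maps which fix the normals are the identity -/
lemma eq_id_of_fix {g : M 6 →ₗ[ℝ] M 6} (h : ∀ i, g (e27 i) = e27 i) : g = LinearMap.id := by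
  have hdec : ∀ x : M 6, x = (∑ j : Fin 6, (-(x.1 j)) • e27 ⟨j, by omega⟩)
      + x.2 • (e27 6 + e27 0 + e27 1) := by
    intro x
    refine Prod.ext (funext fun j => ?_) ?_
    · rw [Fin.sum_univ_six]
      fin_cases j <;> simp [e27, v27]
    · rw [Fin.sum_univ_six]
      simp [e27, v27]
  refine LinearMap.ext fun x => ?_
  rw [LinearMap.id_apply]
  conv_lhs => rw [hdec x]
  conv_rhs => rw [hdec x]
  simp only [map_add, map_sum, map_smul, h]

lemma v27_mod : ∀ i j : Fin 27, (∀ k : Fin 7, (v27 i k - v27 j k) % 2 = 0) → i = j := by decide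

lemma eq_id_of_fix_p27 {g : M 6 →ₗ[ℝ] M 6} (hg : IsGamma62 g) (h : g p27 = p27) :
    g = LinearMap.id := by
  refine eq_id_of_fix fun i => ?_
  obtain ⟨j, hj⟩ := eq_e27 (hg.isInt (isInt_e27 i)) (by rw [hg.1, B_e27_self])
    (by rw [← h, hg.1, B_comm, B_p27])
  obtain ⟨z, hz, h1⟩ := hg.2.2 _ (isInt_e27 i)
  obtain ⟨w, rfl⟩ := hz.exists_toM
  have hij : j = i := by
    apply v27_mod
    intro k
    have h2 : v27 j k - v27 i k = 2 * w k := by
      rw [hj] at h1
      refine Fin.lastCases ?_ (fun k => ?_) k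
      · have := congrArg Prod.snd h1
        simp only [e27, toM, Prod.snd_add, Prod.smul_snd, smul_eq_mul] at this
        have h3 : (v27 j 6 : ℝ) - v27 i 6 = 2 * w 6 := by linarith
        show v27 j 6 - v27 i 6 = 2 * w 6
        exact_mod_cast h3
      · have := congrFun (congrArg Prod.fst h1) k
        simp only [e27, toM, Prod.fst_add, Prod.smul_fst, Pi.add_apply, Pi.smul_apply,
          smul_eq_mul] at this
        have h3 : (v27 j k.castSucc : ℝ) - v27 i k.castSucc = 2 * w k.castSucc := by linarith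
        exact_mod_cast h3
    omega
  rw [hj, hij]

/-- an image of the centre in the 27-sided cone is the centre -/
lemma eq_p27 {g : M 6 →ₗ[ℝ] M 6} (hg : IsGamma62 g) (h : ∀ i, B (g p27) (e27 i) ≤ 0) :
    g p27 = p27 := by
  have h1 : ∀ i, B (g p27 - p27) (e27 i) ≤ 0 := by
    intro i
    rw [B_sub_left, B_p27]
    obtain ⟨z, hz, h2⟩ := hg.2.2 _ isInt_p27
    obtain ⟨m, hm⟩ := hz.B (isInt_e27 i)
    have h3 := h i
    rw [h2, B_add_left, B_smul_left, hm, B_p27] at h3 ⊢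
    have h4 : ((-1 + 2 * m : ℤ) : ℝ) ≤ 0 := by push_cast; linarith
    have h5 : (-1 + 2 * m : ℤ) ≤ 0 := by exact_mod_cast h4
    have h6 : (-1 + 2 * m : ℤ) ≤ -1 := by omega
    have h7 : ((-1 + 2 * m : ℤ) : ℝ) ≤ -1 := by exact_mod_cast h6
    push_cast at h7
    linarith
  by_contra hne
  have hw0 : g p27 - p27 ≠ 0 := sub_ne_zero.2 hne
  have h2 : B (g p27 - p27) p27 < 0 := R27.K_time (by norm_num) (x := g p27 - p27) h1 hw0
  have h3 := cone27 _ h1
  have h4 : B (g p27) (g p27) = -3 := by rw [hg.1, B_p27_self]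
  rw [B_sub_left, B_p27_self] at h2
  rw [B_sub_left, B_sub_right, B_sub_right, h4, B_p27_self, B_comm p27] at h3
  linarith

end Pool.Agent.RA
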