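import Pool.Agent.Lib_helper75.RAP6
import Pool.Agent.Lib_helper6.RAPoly

/-!
MP_20f8ce_gt : integer vectors of norm 1 and the 27-sided polytope.
-/

open MeasureTheory Finset

namespace Pool.Agent.RA

/-- the vector with integer coordinates `z` -/
def toM (z : Fin 7 → ℤ) : M 6 := (fun j => (z j.castSucc : ℝ), (z 6 : ℝ))

lemma isInt_toM (z : Fin 7 → ℤ) : IsInt (toM z) := ⟨fun i => ⟨z i.castSucc, rfl⟩, ⟨z 6, rfl⟩⟩

lemma IsInt.exists_toM {x : M 6} (h : IsInt x) : ∃ z, x = toM z := by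
  obtain ⟨h1, m, hm⟩ := h
  choose k hk using h1
  refine ⟨fun i => if hi : (i : ℕ) < 6 then k ⟨i, hi⟩ else m, ?_⟩
  refine Prod.ext (funext fun i => ?_) ?_
  · have h6 : ((i.castSucc : Fin 7) : ℕ) < 6 := i.2
    simp only [toM, dif_pos h6]
    exact hk i
  · have h6 : ¬ (((6 : Fin 7) : ℕ) < 6) := by decide
    simp only [toM, dif_neg h6]
    exact hm

lemma e27_eq (i : Fin 27) : e27 i = toM (v27 i) := rfl

lemma isInt_e27 (i : Fin 27) : IsInt (e27 i) := isInt_toM _

lemma isInt_p27 : IsInt p27 := by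
  refine ⟨fun i => ⟨1, by simp [p27]⟩, ⟨3, by simp [p27]⟩⟩

lemma IsInt.add {x y : M 6} (hx : IsInt x) (hy : IsInt y) : IsInt (x + y) := by
  obtain ⟨h1, m, hm⟩ := hx
  obtain ⟨h2, m', hm'⟩ := hy
  refine ⟨fun i => ?_, ⟨m + m', by simp [hm, hm']⟩⟩
  obtain ⟨k, hk⟩ := h1 i
  obtain ⟨l, hl⟩ := h2 i
  exact ⟨k + l, by simp [hk, hl]⟩

lemma IsInt.zsmul {x : M 6} (hx : IsInt x) (c : ℤ) : IsInt ((c : ℝ) • x) := by
  obtain ⟨h1, m, hm⟩ := hx
  refine ⟨fun i => ?_, ⟨c * m, by simp [hm]⟩⟩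
  obtain ⟨k, hk⟩ := h1 i
  exact ⟨c * k, by simp [hk]⟩

lemma IsInt.neg {x : M 6} (hx : IsInt x) : IsInt (-x) := by
  simpa using hx.zsmul (-1)

lemma IsInt.sub {x y : M 6} (hx : IsInt x) (hy : IsInt y) : IsInt (x - y) := by
  rw [sub_eq_add_neg]; exact hx.add hy.neg

lemma IsInt.B {x y : M 6} (hx : IsInt x) (hy : IsInt y) : ∃ m : ℤ, B x y = m := by
  obtain ⟨z, rfl⟩ := hx.exists_toM
  obtain ⟨w, rfl⟩ := hy.exists_toM
  refine ⟨(∑ i : Fin 6, z i.castSucc * w i.castSucc) - z 6 * w 6, ?_⟩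
  simp [RA.B, toM]

/-- integer vectors of norm one have odd product with `p27` -/
lemma odd_p27 {v : M 6} (hv : IsInt v) (h1 : B v v = 1) : ∃ m : ℤ, B v p27 = m ∧ Odd m := by
  obtain ⟨z, rfl⟩ := hv.exists_toM
  refine ⟨(∑ i : Fin 6, z i.castSucc) - 3 * z 6, ?_, ?_⟩
  · simp [RA.B, toM, p27]; ring
  · have h2 : (∑ i : Fin 6, z i.castSucc * z i.castSucc) - z 6 * z 6 = 1 := by
      have : ((∑ i : Fin 6, z i.castSucc * z i.castSucc : ℤ) : ℝ) - z 6 * z 6 = 1 := by
        rw [← h1]; simp [RA.B, toM]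
      exact_mod_cast this
    have h3 : ∀ i : Fin 6, Even (z i.castSucc * z i.castSucc - z i.castSucc) := by
      intro i
      have := Int.even_mul_pred_self (z i.castSucc)
      rwa [show z i.castSucc * z i.castSucc - z i.castSucc = z i.castSucc * (z i.castSucc - 1) by ring]
    have h4 : Even (∑ i : Fin 6, (z i.castSucc * z i.castSucc - z i.castSucc)) :=
      Finset.even_sum _ fun i _ => h3 i
    have h5 : Even (z 6 * z 6 - z 6) := by
      have := Int.even_mul_pred_self (z 6)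
      rwa [show z 6 * z 6 - z 6 = z 6 * (z 6 - 1) by ring]
    rw [Finset.sum_sub_distrib] at h4
    obtain ⟨c, hc⟩ := h4
    obtain ⟨d, hd⟩ := h5
    refine ⟨-c + d - z 6, ?_⟩
    linarith

/-- reversed Cauchy-Schwarz -/
lemma reversed_cs {q u : M 6} (hq : B q q < 0) : B u u * B q q ≤ B u q ^ 2 := by
  have hz : B (u - (B u q / B q q) • q) q = 0 := by
    rw [B_sub_left, B_smul_left, div_mul_cancel₀ _ hq.ne, sub_self]
  have h : 0 ≤ B (u - (B u q / B q q) • q) (u - (B u q / B q q) • q) := by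
    by_cases h0 : u - (B u q / B q q) • q = 0
    · rw [h0]; simp
    · exact (timelike_perp_pos hq hz h0).le
  rw [B_sub_right, B_smul_right, hz, mul_zero, sub_zero, B_sub_left, B_smul_left, B_comm q u] at h
  have h2 : (B u u - B u q / B q q * B u q) * B q q ≤ 0 :=
    mul_nonpos_of_nonneg_of_nonpos h hq.le
  have h3 : B u q / B q q * B q q = B u q := div_mul_cancel₀ _ hq.ne
  have h4 : (B u u - B u q / B q q * B u q) * B q q = B u u * B q q - B u q ^ 2 := by
    linear_combination (-B u q) * h3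
  linarith

lemma exists_b {v : M 6} (hv : IsInt v) (h1 : B v v = 1) :
    ∃ (i : Fin 27) (b : ℤ), B v (e27 i) = b ∧ 1 ≤ b := by
  by_contra hcon
  push Not at hcon
  have h : ∀ i, B v (e27 i) ≤ 0 := by
    intro i
    obtain ⟨m, hm⟩ := hv.B (isInt_e27 i)
    have := hcon i m hm
    rw [hm]
    exact_mod_cast (by omega : m ≤ 0)
  have := cone27 v h
  linarith

/-- the key step -/
lemma step_or {v : M 6} (h1 : B v v = 1) (a b : ℤ) (ha1 : 1 ≤ a)
    (ha : B v p27 = -a) (i : Fin 27) (hb : B v (e27 i) = b) (hb1 : 1 ≤ b) (hab : a ≤ 2 * b - 1) :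
    v = e27 i := by
  set q := p27 + e27 i with hq
  have hqq : B q q = -4 := by
    rw [hq, B_add_left, B_add_right, B_add_right, B_comm (e27 i) p27, B_p27, B_p27_self, B_e27,
      g27_diag]
    norm_num
  set u := v - (b : ℝ) • e27 i with hu
  have huu : B u u = 1 - (b : ℝ) ^ 2 := by
    rw [hu, B_sub_left, B_sub_right, B_sub_right, B_smul_left, B_smul_left, B_smul_right,
      B_smul_right, B_comm (e27 i) v, hb, h1, B_e27, g27_diag]
    push_cast
    ring
  have huq : B u q = -a + b := by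
    rw [hu, hq, B_sub_left, B_add_right, B_add_right, B_smul_left, B_smul_left,
      B_comm (e27 i) p27, hb, ha, B_p27, B_e27, g27_diag]
    push_cast
    ring
  have hcs := reversed_cs (q := q) (u := u) (by rw [hqq]; norm_num)
  rw [huu, hqq, huq] at hcs
  have hcs' : (1 - b ^ 2) * (-4) ≤ (-a + b) ^ 2 := by exact_mod_cast hcs
  have hb2 : b = 1 := by nlinarith
  subst hb2
  have ha2 : a = 1 := by omega
  subst ha2
  have hu0 : u = 0 := by
    refine causal_perp_timelike (p := q) (by rw [hqq]; norm_num) ?_ ?_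
    · rw [huq]; norm_num
    · rw [huu]; norm_num
  rw [hu, sub_eq_zero] at hu0
  rw [hu0]
  simp

/-- integer unit vectors with product `-1` with the centre are the 27 normals -/
lemma eq_e27 {v : M 6} (hv : IsInt v) (h1 : B v v = 1) (h2 : B v p27 = -1) : ∃ i, v = e27 i := by
  obtain ⟨i, b, hb, hb1⟩ := exists_b hv h1
  exact ⟨i, step_or h1 1 b le_rfl (by rw [h2]; norm_num) i hb hb1 (by omega)⟩

lemma neg_aux (N : ℕ) : ∀ v : M 6, IsInt v → B v v = 1 → (∃ a : ℤ, 1 ≤ a ∧ a ≤ N ∧ B v p27 = -a) →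
    (∀ x, (∀ i, B x (e27 i) ≤ 0) → B x v ≤ 0) ∧ (∀ x, (∀ i, B x (e27 i) < 0) → B x v < 0) := by
  induction N with
  | zero =>
    rintro v - - ⟨a, h1, h2, -⟩
    norm_num at h2
    omega
  | succ N ih =>
    rintro v hv h1 ⟨a, ha1, haN, ha⟩
    obtain ⟨i, b, hb, hb1⟩ := exists_b hv h1
    rcases le_or_gt a (2 * b - 1) with hab | hab
    · have := step_or h1 a b ha1 ha i hb hb1 hab
      rw [this]
      exact ⟨fun x hx => hx i, fun x hx => hx i⟩
    · have hodd : a ≠ 2 * b := by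
        intro h
        obtain ⟨m, hm, k, hk⟩ := odd_p27 hv h1
        rw [ha] at hm
        have : -a = m := by exact_mod_cast hm
        omega
      have e1 : B (v - ((2 * b : ℤ) : ℝ) • e27 i) (v - ((2 * b : ℤ) : ℝ) • e27 i) = 1 := by
        rw [B_sub_left, B_sub_right, B_sub_right, B_smul_left, B_smul_left, B_smul_right,
          B_smul_right, B_comm (e27 i) v, hb, h1, B_e27, g27_diag]
        push_cast
        ring
      have e2 : B (v - ((2 * b : ℤ) : ℝ) • e27 i) p27 = -((a - 2 * b : ℤ) : ℝ) := by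
        rw [B_sub_left, B_smul_left, B_comm (e27 i) p27, B_p27, ha]
        push_cast
        ring
      obtain ⟨h3, h4⟩ := ih (v - ((2 * b : ℤ) : ℝ) • e27 i) (hv.sub ((isInt_e27 i).zsmul _)) e1
        ⟨a - 2 * b, by omega, by push_cast at haN ⊢; omega, e2⟩
      have hv' : ∀ x, B x v = B x (v - ((2 * b : ℤ) : ℝ) • e27 i) + (2 * b) * B x (e27 i) := by
        intro x
        rw [B_sub_right, B_smul_right]
        push_cast
        ring
      have hb' : (0 : ℝ) < 2 * b := by
        have : (1 : ℝ) ≤ b := by exact_mod_cast hb1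
        linarith
      constructor
      · intro x hx
        rw [hv' x]
        have := h3 x hx
        have := mul_nonpos_of_nonneg_of_nonpos hb'.le (hx i)
        linarith
      · intro x hx
        rw [hv' x]
        have := h4 x hx
        have := mul_neg_of_pos_of_neg hb' (hx i)
        linarith

/-- every integer unit vector is, up to sign, nonpositive on the 27-sided cone -/
theorem unit_sign {v : M 6} (hv : IsInt v) (h1 : B v v = 1) (h2 : B v p27 ≤ 0) :
    (∀ x, (∀ i, B x (e27 i) ≤ 0) → B x v ≤ 0) ∧ (∀ x, (∀ i, B x (e27 i) < 0) → B x v < 0) := by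
  obtain ⟨m, hm, k, hk⟩ := odd_p27 hv h1
  have hm0 : m ≤ 0 := by rw [hm] at h2; exact_mod_cast h2
  exact neg_aux (-m).toNat v hv h1 ⟨-m, by omega, by rw [Int.toNat_of_nonneg (by omega)], by
    rw [hm]; push_cast; ring⟩

/-- no mirror cuts the polytope -/
theorem nocut_unit {v : M 6} (hv : IsInt v) (h1 : B v v = 1) {x : M 6} (hx : ∀ i, B x (e27 i) < 0) :
    B x v ≠ 0 := by
  rcases le_total (B v p27) 0 with h | h
  · exact ((unit_sign hv h1 h).2 x hx).ne
  · have h' : B (-v) p27 ≤ 0 := by rw [B_neg_left]; linarith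
    have := (unit_sign hv.neg (by rw [B_neg_left, B_neg_right, neg_neg]; exact h1) h').2 x hx
    rw [B_neg_right] at this
    intro h0
    rw [h0] at this
    simp at this

end Pool.Agent.RA
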