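import Pool.Agent.Lib_helper54.RAGB
import Pool.Agent.Lib_helper6.RAHyp
import Pool.Agent.Lib_helper54.RAChi27
import Pool.Agent.Lib_helper16.RA.P27

/-!
MP_20f8ce_gt : the 27-sided polytope `P^6`, its volume.
-/

open MeasureTheory Finset

namespace Pool.Agent.RA

/-- the quadratic inequality behind `cone27` -/
lemma cone27_aux (u : Fin 6 → ℝ) (t : ℝ) (h1 : ∀ i, 0 ≤ u i)
    (h2 : ∀ i j, i ≠ j → u i + u j ≤ t) (h3 : ∀ k, (∑ i, u i) - u k ≤ 2 * t) :
    ∑ i, u i ^ 2 ≤ t ^ 2 := by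
  classical
  obtain ⟨i0, -, hmax⟩ := Finset.exists_max_image (univ : Finset (Fin 6)) u ⟨0, mem_univ _⟩
  have hne : ((univ : Finset (Fin 6)).erase i0).Nonempty := by
    rw [← Finset.card_pos, Finset.card_erase_of_mem (mem_univ _)]
    simp
  obtain ⟨j0, hj0, hmin⟩ := Finset.exists_min_image ((univ : Finset (Fin 6)).erase i0) u hne
  have hji : j0 ≠ i0 := (Finset.mem_erase.1 hj0).1
  set S4 := ((univ : Finset (Fin 6)).erase i0).erase j0 with hS4
  have hcard : S4.card = 4 := by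
    rw [hS4, Finset.card_erase_of_mem hj0, Finset.card_erase_of_mem (mem_univ _)]
    simp
  have hsum : ∀ f : Fin 6 → ℝ, ∑ i, f i = f i0 + f j0 + ∑ i ∈ S4, f i := by
    intro f
    rw [← Finset.add_sum_erase _ _ (mem_univ i0), ← Finset.add_sum_erase _ _ hj0]
    ring
  have ha : ∀ i, u i ≤ u i0 := fun i => hmax i (mem_univ _)
  have hm : ∀ i ∈ S4, u j0 ≤ u i := fun i hi => hmin i (Finset.mem_of_mem_erase hi)
  have hb : ∀ i ∈ S4, u i ≤ t - u i0 := by
    intro i hi
    have := (Finset.mem_erase.1 (Finset.mem_of_mem_erase hi)).1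
    have := h2 i i0 this
    linarith
  have hmb : u j0 ≤ t - u i0 := by
    have := h2 j0 i0 hji
    linarith
  have hma : u j0 ≤ u i0 := ha j0
  have h30 := h3 j0
  rw [hsum u] at h30
  rw [hsum (fun i => u i ^ 2)]
  set a := u i0
  set m := u j0
  set S := ∑ i ∈ S4, u i with hS
  set T := ∑ i ∈ S4, u i ^ 2 with hT
  have hm0 : 0 ≤ m := h1 j0
  have hT1 : ∀ b : ℝ, (∀ i ∈ S4, u i ≤ b) → T ≤ (b + m) * S - 4 * b * m := by
    intro b hb'
    have h : 0 ≤ ∑ i ∈ S4, (b - u i) * (u i - m) :=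
      Finset.sum_nonneg fun i hi => mul_nonneg (by linarith [hb' i hi]) (by linarith [hm i hi])
    have h' : ∑ i ∈ S4, (b - u i) * (u i - m) = (b + m) * S - T - 4 * b * m := by
      rw [hS, hT, Finset.mul_sum, ← Finset.sum_sub_distrib]
      have : (4 * b * m : ℝ) = ∑ i ∈ S4, b * m := by
        rw [Finset.sum_const, hcard]; simp; ring
      rw [this, ← Finset.sum_sub_distrib]
      exact Finset.sum_congr rfl fun i _ => by ring
    linarith
  have hSm : 4 * m ≤ S := by
    have : ∑ i ∈ S4, m ≤ S := Finset.sum_le_sum hm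
    rw [Finset.sum_const, hcard] at this
    simpa using this
  rcases le_total (t - a) a with hc | hc
  · have h := hT1 (t - a) hb
    have h5 : 0 ≤ (t - a - m) * (t - 2 * (t - a) + m) :=
      mul_nonneg (by linarith) (by linarith)
    have h6 : 0 ≤ (t - a + m) * (2 * t - a - S) := mul_nonneg (by linarith) (by linarith)
    nlinarith
  · have h := hT1 a (fun i _ => ha i)
    have h5 : 0 ≤ (t / 2 - a) * (2 * t - 5 * m) := mul_nonneg (by linarith) (by linarith)
    have h6 : 0 ≤ m * (t / 2 - m) := mul_nonneg hm0 (by linarith)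
    have h7 : 0 ≤ (a + m) * (2 * t - a - S) := mul_nonneg (by linarith) (by linarith)
    nlinarith

lemma facets27 (x : M 6) (hx : ∀ i, B x (e27 i) ≤ 0) :
    (∀ i, 0 ≤ x.1 i) ∧ (∀ i j, i ≠ j → x.1 i + x.1 j ≤ x.2) ∧
      (∀ k, (∑ i, x.1 i) - x.1 k ≤ 2 * x.2) := by
  have H : ∀ i, x.1 0 * (v27 i 0 : ℝ) + x.1 1 * (v27 i 1 : ℝ) + x.1 2 * (v27 i 2 : ℝ)
      + x.1 3 * (v27 i 3 : ℝ) + x.1 4 * (v27 i 4 : ℝ) + x.1 5 * (v27 i 5 : ℝ)
      - x.2 * (v27 i 6 : ℝ) ≤ 0 := by
    intro i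
    have := hx i
    simp only [B, e27, Fin.sum_univ_six] at this
    exact this
  refine ⟨?_, ?_, ?_⟩
  · intro i
    fin_cases i
    · have := H 0; simp [v27] at this ⊢; linarith
    · have := H 1; simp [v27] at this ⊢; linarith
    · have := H 2; simp [v27] at this ⊢; linarith
    · have := H 3; simp [v27] at this ⊢; linarith
    · have := H 4; simp [v27] at this ⊢; linarith
    · have := H 5; simp [v27] at this ⊢; linarith
  · have h6 := H 6
    have h7 := H 7
    have h8 := H 8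
    have h9 := H 9
    have h10 := H 10
    have h11 := H 11
    have h12 := H 12
    have h13 := H 13
    have h14 := H 14
    have h15 := H 15
    have h16 := H 16
    have h17 := H 17
    have h18 := H 18
    have h19 := H 19
    have h20 := H 20
    simp [v27] at h6 h7 h8 h9 h10 h11 h12 h13 h14 h15 h16 h17 h18 h19 h20
    intro i j hij
    fin_cases i <;> fin_cases j <;> first | exact absurd rfl hij | (simp; linarith)
  · intro k
    rw [Fin.sum_univ_six]
    fin_cases k
    · have := H 21; simp [v27] at this ⊢; linarith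
    · have := H 22; simp [v27] at this ⊢; linarith
    · have := H 23; simp [v27] at this ⊢; linarith
    · have := H 24; simp [v27] at this ⊢; linarith
    · have := H 25; simp [v27] at this ⊢; linarith
    · have := H 26; simp [v27] at this ⊢; linarith

theorem cone27 (x : M 6) (hx : ∀ i, B x (e27 i) ≤ 0) : B x x ≤ 0 := by
  obtain ⟨h1, h2, h3⟩ := facets27 x hx
  have := cone27_aux x.1 x.2 h1 h2 h3
  rw [B_self]
  linarith

/-- the centre of `P^6` (up to scaling) -/
def p27 : M 6 := (fun _ => 1, 3)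

lemma B_p27_self : B p27 p27 = -3 := by
  simp [B, p27]; norm_num

lemma B_p27 : ∀ i, B p27 (e27 i) = -1 := by
  intro i
  have : ∀ i : Fin 27, (∑ j : Fin 6, v27 i j.castSucc) - 3 * v27 i 6 = -1 := by decide
  have h := this i
  simp only [B, p27, e27, one_mul]
  exact_mod_cast h

/-- the right-angled system of `P^6` -/
def R27 : RASys 6 (Fin 27) where
  e := e27
  unit := fun i => by rw [B_e27, g27_diag]; simp
  gram := fun i j hij => by
    rw [B_e27]
    rcases g27_off i j hij with h | h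
    · left; rw [h]; simp
    · right; rw [h]; simp
  p := p27
  ptime := by rw [B_p27_self]; norm_num
  pneg := fun i => by rw [B_p27]; norm_num
  cone := cone27

lemma R27_e : R27.e = e27 := rfl

lemma R27_G : R27.G = fun i j : Fin 27 => (g27 i j : ℝ) := by
  funext i j
  exact B_e27 i j

/-- volume of a right-angled system in terms of `chi` -/
lemma vol_of_chi {ι : Type} [Fintype ι] [DecidableEq ι] (R : RASys 6 ι) :
    volume (R.K ∩ {x | -1 ≤ B x x}) < ⊤ ∧
      7 * (volume (R.K ∩ {x | -1 ≤ B x x})).toReal = -(8 / 15) * Real.pi ^ 3 * chi R.G := by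
  have hsmul : ∀ x ∈ R.K, ∀ t : ℝ, 0 < t → t • x ∈ R.K := by
    intro x hx t ht i
    rw [B_smul_left]
    exact mul_nonpos_of_nonneg_of_nonpos ht.le (hx i)
  obtain ⟨hfin, hexp⟩ := integral_exp_cone R.K R.measurableSet_K hsmul (fun x hx => R.cone x hx)
    (integrableOn_exp (by norm_num) R)
  refine ⟨hfin, ?_⟩
  have hgb := gauss_bonnet (by norm_num) (by decide) R
  set L : ℝ := (volume (R.K ∩ {x | -1 ≤ B x x})).toReal with hL
  have hpi : 0 < Real.pi := Real.pi_pos
  have hGamma : Real.Gamma ((((6 : ℕ) : ℝ) + 1) / 2 + 1) = 105 / 16 * Real.sqrt Real.pi := by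
    have h1 := Real.Gamma_nat_add_half 4
    have h2 : ((((6 : ℕ) : ℝ) + 1) / 2 + 1) = ((4 : ℕ) : ℝ) + 1 / 2 := by push_cast; norm_num
    rw [h2, h1]
    norm_num [Nat.doubleFactorial]
    ring
  have h1 : Real.pi ^ ((((6 : ℕ) : ℝ) + 1) / 2) = Real.pi ^ 3 * Real.sqrt Real.pi := by
    rw [Real.sqrt_eq_rpow, ← Real.rpow_natCast, ← Real.rpow_add hpi]
    congr 1
    push_cast
    norm_num
  rw [hexp, hGamma, h1, show (6 / 2 : ℕ) = 3 from rfl] at hgb
  have hs : 0 < Real.sqrt Real.pi := Real.sqrt_pos.2 hpi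
  have h2 : Real.sqrt Real.pi * (2 * (105 / 16) * L + Real.pi ^ 3 * chi R.G) = 0 := by
    linear_combination hgb
  rcases mul_eq_zero.1 h2 with h3 | h3
  · exact absurd h3 hs.ne'
  · linear_combination (8 / 15) * h3

lemma hvol_congr {A A' : Set (M 6)} (h : ∀ x ∈ Hyp, (x ∈ A ↔ x ∈ A')) : hvol A = hvol A' := by
  have : A ∩ Hyp = A' ∩ Hyp := by
    ext x
    constructor
    · rintro ⟨h1, h2⟩; exact ⟨(h x h2).1 h1, h2⟩
    · rintro ⟨h1, h2⟩; exact ⟨(h x h2).2 h1, h2⟩
  rw [hvol, hvol, this]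

lemma hvol_of_chi {ι : Type} [Fintype ι] [DecidableEq ι] (R : RASys 6 ι)
    (h0 : ∀ x ∈ R.K, 0 ≤ x.2) :
    hvol {x | x ∈ Hyp ∧ ∀ i, B x (R.e i) ≤ 0} = ENNReal.ofReal (-(8 / 15) * Real.pi ^ 3 * chi R.G) := by
  have hsmul : ∀ x ∈ R.K, ∀ t : ℝ, 0 < t → t • x ∈ R.K := by
    intro x hx t ht i
    rw [B_smul_left]
    exact mul_nonpos_of_nonneg_of_nonpos ht.le (hx i)
  obtain ⟨hfin, hv⟩ := vol_of_chi R
  have h1 : hvol {x | x ∈ Hyp ∧ ∀ i, B x (R.e i) ≤ 0} = hvol R.K :=
    hvol_congr fun x hx => ⟨fun h => h.2, fun h => ⟨hx, h⟩⟩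
  rw [h1, hvol_cone R.K R.isClosed_K hsmul fun x hx => ⟨R.cone x hx, h0 x hx⟩, ← hv,
    ENNReal.ofReal_mul (by norm_num), ENNReal.ofReal_toReal hfin.ne]
  simp

lemma K27_time (x : M 6) (hx : x ∈ R27.K) : 0 ≤ x.2 := by
  obtain ⟨h1, h2, -⟩ := facets27 x hx
  have := h2 0 1 (by decide)
  linarith [h1 0, h1 1]

/-- the volume of `P^6` -/
theorem hvol_P27 :
    hvol {x | x ∈ Hyp ∧ ∀ i, B x (e27 i) ≤ 0} = ENNReal.ofReal (Real.pi ^ 3 / 15) := by
  have := hvol_of_chi R27 K27_time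
  rw [R27_G, chi27, R27_e] at this
  rw [this]
  congr 1
  ring

/-- scaling into the hyperboloid -/
lemma scale_Hyp {x : M 6} {c : ℝ} (hc : 0 < c) (hx : B x x = -c ^ 2) (h2 : 0 < x.2) :
    c⁻¹ • x ∈ Hyp := by
  constructor
  · rw [B_smul_left, B_smul_right, hx]
    field_simp
  · rw [Prod.smul_snd, smul_eq_mul]
    exact mul_pos (inv_pos.2 hc) h2

/-- `P^6` is a right-angled polytope -/
theorem isRAP_P27 : IsRAP {x | x ∈ Hyp ∧ ∀ i, B x (e27 i) ≤ 0} := by
  have h3 : (0 : ℝ) < Real.sqrt 3 := Real.sqrt_pos.2 (by norm_num)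
  have h33 : Real.sqrt 3 ^ 2 = 3 := Real.sq_sqrt (by norm_num)
  have hi3 : 0 < (Real.sqrt 3)⁻¹ := inv_pos.2 h3
  refine ⟨27, e27, fun i => R27.unit i, rfl, ⟨(Real.sqrt 3)⁻¹ • p27, ?_, ?_⟩, ?_, ?_, ?_⟩
  · exact scale_Hyp h3 (by rw [B_p27_self, h33]) (by simp [p27])
  · intro i
    rw [B_smul_left, B_p27]
    linarith
  · intro i
    have hpos : ∀ i : Fin 27, 0 ≤ v27 i 6 := by decide
    refine ⟨(Real.sqrt 3)⁻¹ • (p27 + (2 : ℝ) • e27 i), scale_Hyp h3 ?_ ?_, ?_, ?_⟩
    · rw [B_add_left, B_add_right, B_add_right, B_smul_left, B_smul_left, B_smul_right,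
        B_smul_right, B_comm (e27 i) p27, B_p27, B_p27_self, B_e27, g27_diag, h33]
      norm_num
    · have h := hpos i
      have h' : (0 : ℝ) ≤ (v27 i 6 : ℝ) := by exact_mod_cast h
      show 0 < (3 : ℝ) + 2 * (v27 i 6 : ℝ)
      linarith
    · rw [B_smul_left, B_add_left, B_smul_left, B_p27, B_e27, g27_diag]
      norm_num
    · intro j hj
      rw [B_smul_left, B_add_left, B_smul_left, B_p27, B_e27]
      refine mul_nonpos_of_nonneg_of_nonpos hi3.le ?_
      rcases g27_off i j (Ne.symm hj) with h | h <;> rw [h] <;> norm_num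
  · rintro i j hij ⟨x, hx, hxi, hxj⟩
    rw [B_e27]
    rcases g27_off i j hij with h | h
    · rw [h]; simp
    · exfalso
      have h0 : e27 i + e27 j = 0 := by
        refine causal_perp_timelike (p := x) (by rw [hx.1]; norm_num) ?_ ?_
        · rw [B_comm, B_add_right, hxi, hxj, add_zero]
        · rw [B_add_left, B_add_right, B_add_right, B_e27, B_e27, B_e27, B_e27, g27_diag,
            g27_diag, h]
          have h' : g27 j i = -1 := by
            have := B_comm (e27 i) (e27 j)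
            rw [B_e27, B_e27] at this
            have h2 : g27 i j = g27 j i := by exact_mod_cast this
            rw [← h2, h]
          rw [h']
          norm_num
      have h1 : B p27 (e27 i + e27 j) = -2 := by
        rw [B_add_right, B_p27, B_p27]; norm_num
      rw [h0, B_zero_right] at h1
      norm_num at h1
  · rw [hvol_P27]
    exact ENNReal.ofReal_lt_top

end Pool.Agent.RA
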